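import Mathlib
import Pool.Agent.R492.Bez.Fin

/-!
# Bézout denominator versus resultant: the limit is `(6 / π²)² = 36 / π⁴` for all degrees at least two

For every prime `p` the condition `p ∤ R / B` only depends on `f`, `g` modulo `p`: it says that not both
leading coefficients vanish modulo `p` and that `gcd (f, g)` modulo `p` has degree at most one. The density
of this condition is `(1 - 1 / p²)²` for all degrees `m, n ≥ 2`; the large primes are handled by a sieve.
-/

set_option autoImplicit false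

namespace Pool.Agent.Results.MP_32694d_nt.LimitValue

open Polynomial Filter Topology

/-- `f` and `g` share no root in `ℂ`. -/
def Coprime (f g : ℤ[X]) : Prop := ∀ z : ℂ, ¬ (aeval z f = 0 ∧ aeval z g = 0)

/-- `B (f, g)`: the least positive integer `N` such that `N p` and `N q` have integer coefficients, where
`p, q ∈ ℚ[x]` is the (unique) pair with `p f + q g = 1`, `deg p < deg g` and `deg q < deg f`. -/
noncomputable def B (f g : ℤ[X]) : ℕ :=
  sInf {N : ℕ | 0 < N ∧ ∃ p q : ℚ[X],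
    p * f.map (Int.castRingHom ℚ) + q * g.map (Int.castRingHom ℚ) = 1 ∧
    p.degree < g.degree ∧ q.degree < f.degree ∧
    (∃ u : ℤ[X], C (N : ℚ) * p = u.map (Int.castRingHom ℚ)) ∧
    ∃ v : ℤ[X], C (N : ℚ) * q = v.map (Int.castRingHom ℚ)}

/-- `R (f, g)`: the absolute value of the resultant. -/
noncomputable def R (f g : ℤ[X]) : ℕ := (resultant f g).natAbs

/-- `P_k (H)`: the integer polynomials of exact degree `k` with positive leading coefficient and all
coefficients in `[-H, H]`. -/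
def P (k H : ℕ) : Set ℤ[X] := {f | f.natDegree = k ∧ 0 < f.leadingCoeff ∧ ∀ i, |f.coeff i| ≤ (H : ℤ)}

/-- `S_{m,n} (H)`: the coprime pairs in `P_m (H) × P_n (H)`. -/
def S (m n H : ℕ) : Set (ℤ[X] × ℤ[X]) := {w | w.1 ∈ P m H ∧ w.2 ∈ P n H ∧ Coprime w.1 w.2}

/-- `E_{m,n} (H)`: the pairs in `S_{m,n} (H)` with `B (f, g) = R (f, g)`. -/
def E (m n H : ℕ) : Set (ℤ[X] × ℤ[X]) := {w | w ∈ S m n H ∧ B w.1 w.2 = R w.1 w.2}

/-- `ρ_{m,n} (H)`: the proportion of the pairs with `B = R` among the coprime pairs. -/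
noncomputable def rho (m n H : ℕ) : ℝ := ((E m n H).ncard : ℝ) / ((S m n H).ncard : ℝ)

/-- For all `m, n ≥ 2` the limit of `ρ_{m,n} (H)` as `H → ∞` exists, its value is `36 / π⁴ = 0.3695...`,
and it is less than `1 / 2`. -/
theorem result (m n : ℕ) (hm : 2 ≤ m) (hn : 2 ≤ n) :
    ∃ L : ℝ, Tendsto (fun H : ℕ => rho m n H) atTop (𝓝 L) ∧ L = 36 / Real.pi ^ 4 ∧ L < 1 / 2 := by
  refine ⟨36 / Real.pi ^ 4, ?_, rfl, ?_⟩
  · have h := Pool.Agent.R492.Bez.final m n hm hn
    refine h.congr fun H => ?_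
    have hE : E m n H = {w : ℤ[X] × ℤ[X] | w.1 ∈ Pool.Agent.R492.Bez.PP m H ∧
        w.2 ∈ Pool.Agent.R492.Bez.PP n H ∧ (Pool.Agent.R492.Bez.Coprime w.1 w.2 ∧
        Pool.Agent.R492.Bez.B w.1 w.2 = Pool.Agent.R492.Bez.R w.1 w.2)} := by
      ext w
      exact ⟨fun h => ⟨h.1.1, h.1.2.1, h.1.2.2, h.2⟩, fun h => ⟨⟨h.1, h.2.1, h.2.2.1⟩, h.2.2.2⟩⟩
    unfold rho
    rw [hE]
    rfl
  · rw [div_lt_div_iff₀ (by positivity) (by norm_num)]
    have h3 := Real.pi_gt_three
    have h4 : (3 : ℝ) ^ 4 < Real.pi ^ 4 := pow_lt_pow_left₀ h3 (by norm_num) (by norm_num)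
    norm_num at h4 ⊢
    linarith

end Pool.Agent.Results.MP_32694d_nt.LimitValue
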